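import Pool.Agent.Q6.EKR.Count
import Pool.Agent.Q6.HP.Kinds

/-!
# The numbers of graphs without `r + 1` pairwise adjacent vertices and of `r`-colourable graphs
-/

set_option autoImplicit false
set_option maxHeartbeats 400000

namespace Pool.Agent.Q6.KPR

open Finset
open Pool.Agent.Q6.HP (enum enum_mem exists_enum)
open Pool.Agent.Q6.EKR (extend extend_comap extend_last ext_fiber adj_of_fiber)

open Classical in
/-- the graphs without `r + 1` pairwise adjacent vertices -/
noncomputable def fr (r n : ℕ) : Finset (SimpleGraph (Fin n)) :=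
  univ.filter (fun G => G.CliqueFree (r + 1))

open Classical in
/-- the `r`-colourable graphs -/
noncomputable def co (r n : ℕ) : Finset (SimpleGraph (Fin n)) :=
  univ.filter (fun G => G.Colorable r)

theorem mem_fr {r n : ℕ} (G : SimpleGraph (Fin n)) : G ∈ fr r n ↔ G.CliqueFree (r + 1) := by
  simp [fr]

theorem mem_co {r n : ℕ} (G : SimpleGraph (Fin n)) : G ∈ co r n ↔ G.Colorable r := by
  simp [co]

theorem co_sub_fr (r n : ℕ) : co r n ⊆ fr r n := by
  intro G hG
  rw [mem_fr]
  exact ((mem_co G).1 hG).cliqueFree (by omega)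

theorem co_pos (r n : ℕ) (hr : 1 ≤ r) : 0 < (co r n).card := by
  rw [Finset.card_pos]
  refine ⟨⊥, ?_⟩
  rw [mem_co]
  obtain ⟨p, rfl⟩ : ∃ p, r = p + 1 := ⟨r - 1, by omega⟩
  exact ⟨SimpleGraph.Coloring.mk (fun _ => 0) (fun {u v} h => absurd h (by simp))⟩

theorem extend_colorable {n r : ℕ} (H : SimpleGraph (Fin n)) (S : Finset (Fin n))
    (C : H.Coloring (Fin r)) (c : Fin r) (hS : ∀ v ∈ S, C v ≠ c) : (extend H S).Colorable r := by
  refine ⟨SimpleGraph.Coloring.mk (Fin.snoc (α := fun _ => Fin r) (fun v => C v) c) ?_⟩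
  rintro u v (⟨a, b, rfl, rfl, h⟩ | ⟨rfl, b, hb, rfl⟩ | ⟨rfl, b, hb, rfl⟩)
  · rw [Fin.snoc_castSucc, Fin.snoc_castSucc]
    exact C.valid h
  · rw [Fin.snoc_castSucc, Fin.snoc_last]
    exact (hS b hb).symm
  · rw [Fin.snoc_castSucc, Fin.snoc_last]
    exact hS b hb

open Classical in
theorem fiber_co {n r : ℕ} (hr : 1 ≤ r) (H : SimpleGraph (Fin n)) (hH : H ∈ co r n) (β : ℝ)
    (hβ : 0 ≤ β) (hβ2 : β ^ r = 2 ^ (r - 1)) :
    β ^ n ≤ ((co r (n + 1)).filter (fun G => G.comap Fin.castSucc = H)).card := by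
  obtain ⟨C⟩ := (mem_co H).1 hH
  have h1 : ∑ c : Fin r, (univ.filter (fun v => C v = c)).card = n := by
    have := Finset.card_eq_sum_card_fiberwise (f := fun v => C v) (s := (univ : Finset (Fin n)))
      (t := univ) (fun _ _ => mem_coe.2 (mem_univ _))
    rw [Finset.card_univ, Fintype.card_fin] at this
    exact this.symm
  have h2 : ∃ c : Fin r, r * (univ.filter (fun v => C v = c)).card ≤ n := by
    by_contra hcon
    push Not at hcon
    have h3 : ∑ _c : Fin r, n < ∑ c : Fin r, r * (univ.filter (fun v => C v = c)).card := by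
      apply Finset.sum_lt_sum_of_nonempty
      · exact ⟨⟨0, by omega⟩, mem_univ _⟩
      · intro c _
        exact hcon c
    rw [← Finset.mul_sum, h1, Finset.sum_const, Finset.card_univ, Fintype.card_fin,
      smul_eq_mul] at h3
    exact lt_irrefl _ h3
  obtain ⟨c, hc⟩ := h2
  have h3 : (univ.filter (fun v => C v ≠ c)).powerset.card ≤
      ((co r (n + 1)).filter (fun G => G.comap Fin.castSucc = H)).card := by
    apply Finset.card_le_card_of_injOn (fun S => extend H S)
    · intro S hS
      rw [mem_coe, mem_powerset] at hS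
      rw [mem_coe, mem_filter, mem_co]
      refine ⟨extend_colorable H S C c (fun v hv => ?_), extend_comap H S⟩
      have := hS hv
      simpa using this
    · intro S _ S' _ he
      ext b
      rw [← extend_last H S b, ← extend_last H S' b]
      have he' : extend H S = extend H S' := he
      rw [he']
  rw [Finset.card_powerset] at h3
  have h4 : (univ.filter (fun v => C v ≠ c)).card = n - (univ.filter (fun v => C v = c)).card := by
    have h5 : (univ.filter (fun v => C v = c)).card + (univ.filter (fun v => C v ≠ c)).card =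
        (univ : Finset (Fin n)).card :=
      Finset.card_filter_add_card_filter_not (s := (univ : Finset (Fin n))) (fun v => C v = c)
    rw [Finset.card_univ, Fintype.card_fin] at h5
    omega
  rw [h4] at h3
  set a := (univ.filter (fun v => C v = c)).card with ha
  have han : a ≤ n := by
    rw [ha]
    exact (Finset.card_le_univ _).trans (by rw [Fintype.card_fin])
  have h5 : (β ^ n) ^ r ≤ ((2 : ℝ) ^ (n - a)) ^ r := by
    rw [← pow_mul, mul_comm, pow_mul, hβ2, ← pow_mul, ← pow_mul]
    apply pow_le_pow_right₀ (by norm_num)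
    obtain ⟨p, hp⟩ : ∃ p, r = p + 1 := ⟨r - 1, by omega⟩
    obtain ⟨b, hb⟩ : ∃ b, n = a + b := ⟨n - a, by omega⟩
    rw [hp] at hc ⊢
    rw [hb] at hc ⊢
    simp only [Nat.add_sub_cancel, Nat.add_sub_cancel_left]
    nlinarith
  have h6 : β ^ n ≤ (2 : ℝ) ^ (n - a) :=
    (pow_le_pow_iff_left₀ (by positivity) (by positivity) (by omega)).1 h5
  refine h6.trans ?_
  exact_mod_cast h3

theorem co_succ {r : ℕ} (hr : 1 ≤ r) (n : ℕ) (β : ℝ) (hβ : 0 ≤ β) (hβ2 : β ^ r = 2 ^ (r - 1)) :
    β ^ n * (co r n).card ≤ (co r (n + 1)).card := by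
  classical
  have h1 : (co r (n + 1)).card =
      ∑ H ∈ co r n, ((co r (n + 1)).filter (fun G => G.comap Fin.castSucc = H)).card := by
    apply Finset.card_eq_sum_card_fiberwise
    intro G hG
    rw [mem_coe, mem_co] at hG ⊢
    obtain ⟨C⟩ := hG
    exact ⟨C.comp (SimpleGraph.Embedding.comap Fin.castSuccEmb G).toHom⟩
  rw [h1]
  push_cast
  calc β ^ n * (co r n).card = ∑ _H ∈ co r n, β ^ n := by
        rw [Finset.sum_const, nsmul_eq_mul, mul_comm]
    _ ≤ _ := Finset.sum_le_sum (fun H hH => fiber_co hr H hH β hβ hβ2)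

theorem co_add {r : ℕ} (hr : 1 ≤ r) (m k : ℕ) (β : ℝ) (hβ : 1 ≤ β) (hβ2 : β ^ r = 2 ^ (r - 1)) :
    β ^ (k * m) * (co r m).card ≤ (co r (m + k)).card := by
  induction k with
  | zero => simp
  | succ k ih =>
    have h1 := co_succ hr (m + k) β (by linarith) hβ2
    have h2 : β ^ ((k + 1) * m) ≤ β ^ (m + k) * β ^ (k * m) := by
      rw [← pow_add]
      apply pow_le_pow_right₀ hβ
      nlinarith
    have h3 : (0 : ℝ) ≤ (co r m).card := Nat.cast_nonneg _
    have h4 : (0 : ℝ) ≤ β ^ (m + k) := by positivity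
    calc β ^ ((k + 1) * m) * (co r m).card ≤ β ^ (m + k) * β ^ (k * m) * (co r m).card :=
          mul_le_mul_of_nonneg_right h2 h3
      _ = β ^ (m + k) * (β ^ (k * m) * (co r m).card) := by ring
      _ ≤ β ^ (m + k) * (co r (m + k)).card := mul_le_mul_of_nonneg_left ih h4
      _ ≤ _ := h1

variable {n : ℕ}

open Classical in
theorem fiber_bound (r : ℕ) (W : Finset (Fin n)) (Γ : Finset (SimpleGraph (Fin n)))
    (hΓ : ∀ G ∈ Γ, G.CliqueFree (r + 1)) (M : ℝ)
    (hM : ∀ H, ((Γ.filter (fun G => G.comap (enum W) = H)).card : ℝ) ≤ M) :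
    (Γ.card : ℝ) ≤ (fr r W.card).card * M := by
  have h1 : Γ.card = ∑ H ∈ fr r W.card, (Γ.filter (fun G => G.comap (enum W) = H)).card := by
    apply Finset.card_eq_sum_card_fiberwise
    intro G hG
    rw [mem_coe, mem_fr]
    exact (hΓ G hG).comap ⟨(SimpleGraph.Embedding.comap (enum W) G).toCopy⟩
  rw [h1]
  push_cast
  calc ∑ H ∈ fr r W.card, ((Γ.filter (fun G => G.comap (enum W) = H)).card : ℝ) ≤
        ∑ _H ∈ fr r W.card, M := Finset.sum_le_sum (fun H _ => hM H)
    _ = _ := by rw [Finset.sum_const, nsmul_eq_mul]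

/-- the number of small subsets -/
theorem few_subsets {α : Type} [Fintype α] [DecidableEq α] (A : Finset α) (t : ℕ) :
    (A.powerset.filter (fun S => S.card ≤ t)).card ≤ (A.card + 1) ^ t := by
  classical
  have h1 := Pool.Agent.Q6.HP.ncard_le_card (α := Finset α) (β := Fin t → Option A)
    (A.powerset.filter (fun S => S.card ≤ t) : Set (Finset α))
    (fun S g => ∀ a : α, a ∈ S ↔ ∃ i, ∃ b : A, g i = some b ∧ (b : α) = a)
    (by
      intro S hS
      rw [mem_coe, mem_filter, mem_powerset] at hS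
      obtain ⟨hSA, hc⟩ := hS
      refine ⟨fun i => if h : (i : ℕ) < S.toList.length then
        some ⟨S.toList[(i : ℕ)], hSA (Finset.mem_toList.1 (List.getElem_mem h))⟩ else none,
        fun a => ?_⟩
      rw [← Finset.mem_toList, List.mem_iff_getElem]
      constructor
      · rintro ⟨i, hi, hia⟩
        have h4 := hi
        rw [Finset.length_toList] at h4
        refine ⟨⟨i, lt_of_lt_of_le h4 hc⟩, ⟨S.toList[i], hSA (Finset.mem_toList.1
          (List.getElem_mem hi))⟩, ?_, hia⟩
        simp only [hi, dif_pos]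
      · rintro ⟨i, b, hib, hba⟩
        by_cases h : (i : ℕ) < S.toList.length
        · simp only [h, dif_pos, Option.some.injEq] at hib
          refine ⟨i, h, ?_⟩
          rw [← hba, ← hib]
        · simp only [h, dif_neg, not_false_eq_true] at hib
          exact absurd hib (by simp))
    (by
      intro S _ S' _ g h2 h3
      ext a
      rw [h2 a, h3 a])
  rw [Set.ncard_coe_finset] at h1
  simpa using h1

end Pool.Agent.Q6.KPR
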